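import Mathlib

namespace Pool.Agent.Results.MP_df7fe8_co.Counter

abbrev X := ℕ → ℕ

noncomputable instance : DecidableEq X := Classical.decEq _

inductive L : Type
  | d (n : ℕ)
  | c (i : ℕ) (x : X) (j : ℕ) (h : j < x i)
  | f (s : Finset X)

open L

def le : L → L → Prop
  | d n, d m => m ≤ n
  | d n, c i _ _ _ => i ≤ n
  | d _, f _ => True
  | c _ _ _ _, d _ => False
  | c i x j _, c i' x' j' _ => i = i' ∧ x = x' ∧ j ≤ j'
  | c _ x _ _, f s => x ∈ s
  | f _, d _ => False
  | f _, c _ _ _ _ => False
  | f s, f t => s ⊆ t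

instance : PartialOrder L where
  le := le
  le_refl a := by cases a <;> simp [le]
  le_trans a b e := by
    cases a <;> cases b <;> cases e <;> simp only [le] <;> grind
  le_antisymm a b := by
    cases a <;> cases b <;> simp only [le] <;> grind

theorem le_def (a b : L) : a ≤ b ↔ le a b := Iff.rfl

noncomputable def sup : L → L → L
  | d n, d m => d (min n m)
  | d n, c i x j h => if i ≤ n then c i x j h else f {x}
  | d _, f s => f s
  | c i x j h, d n => if i ≤ n then c i x j h else f {x}
  | c i x j h, c i' x' j' h' =>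
      if i = i' ∧ x = x' then (if j ≤ j' then c i' x' j' h' else c i x j h) else f {x, x'}
  | c _ x _ _, f s => f (insert x s)
  | f s, d _ => f s
  | f s, c _ x _ _ => f (insert x s)
  | f s, f t => f (s ∪ t)

noncomputable def inf : L → L → L
  | d n, d m => d (max n m)
  | d n, c i _ _ _ => d (max n i)
  | d n, f _ => d n
  | c i _ _ _, d n => d (max n i)
  | c i x j h, c i' x' j' h' =>
      if i = i' ∧ x = x' then (if j ≤ j' then c i x j h else c i' x' j' h') else d (max i i')
  | c i x j h, f s => if x ∈ s then c i x j h else d i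
  | f _, d n => d n
  | f s, c i x j h => if x ∈ s then c i x j h else d i
  | f s, f t => f (s ∩ t)

noncomputable instance : Lattice L where
  sup := sup
  inf := inf
  le_sup_left a b := by
    cases a <;> cases b <;> simp only [le_def, sup] <;> (try split_ifs) <;> simp only [le] <;> grind
  le_sup_right a b := by
    cases a <;> cases b <;> simp only [le_def, sup] <;> (try split_ifs) <;> simp only [le] <;> grind
  sup_le a b e := by
    cases a <;> cases b <;> cases e <;> simp only [le_def, sup] <;> (try split_ifs) <;>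
      simp only [le] <;> grind
  inf_le_left a b := by
    cases a <;> cases b <;> simp only [le_def, inf] <;> (try split_ifs) <;> simp only [le] <;> grind
  inf_le_right a b := by
    cases a <;> cases b <;> simp only [le_def, inf] <;> (try split_ifs) <;> simp only [le] <;> grind
  le_inf a b e := by
    cases a <;> cases b <;> cases e <;> simp only [le_def, inf] <;> (try split_ifs) <;>
      simp only [le] <;> grind

def rk (N M : ℕ) : L → ℕ
  | d n => N - n
  | c _ _ j _ => N + 1 + j
  | f s => N + 1 + M + s.card

theorem bnd (N : ℕ) (s : Finset X) : ∃ n : ℕ, ∀ C : Set L, IsChain (· ≤ ·) C →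
    C ⊆ Set.Icc (d N) (f s) → C.encard ≤ n := by
  obtain ⟨M, hM⟩ : ∃ M, ∀ i ≤ N, ∀ x ∈ s, x i ≤ M :=
    ⟨(Finset.range (N + 1) ×ˢ s).sup fun p => p.2 p.1, fun i hi x hx =>
      Finset.le_sup (f := fun p : ℕ × X => p.2 p.1) (b := (i, x))
        (Finset.mem_product.2 ⟨Finset.mem_range.2 (by omega), hx⟩)⟩
  refine ⟨N + 2 + M + s.card, fun C hC hs => ?_⟩
  have mono : ∀ a ∈ C, ∀ b ∈ C, a ≠ b → a ≤ b → rk N M a < rk N M b := by
    intro a ha b hb hne hab
    have a1 := hs ha
    have b1 := hs hb
    rw [Set.mem_Icc, le_def, le_def] at a1 b1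
    rw [le_def] at hab
    cases a <;> cases b <;> simp only [le, rk] at * <;> try grind
    rename_i t u
    have := Finset.card_lt_card (lt_of_le_of_ne hab fun e => hne (by rw [e]))
    omega
  have hinj : Set.InjOn (rk N M) C := by
    intro a ha b hb e
    by_contra hne
    rcases hC ha hb hne with h | h
    · exact absurd e (mono a ha b hb hne h).ne
    · exact absurd e.symm (mono b hb a ha (Ne.symm hne) h).ne
  have hsub : rk N M '' C ⊆ (Finset.range (N + 2 + M + s.card) : Set ℕ) := by
    rintro _ ⟨a, ha, rfl⟩
    have a1 := hs ha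
    rw [Set.mem_Icc, le_def, le_def] at a1
    simp only [Finset.coe_range, Set.mem_Iio]
    cases a <;> simp only [le, rk] at * <;> try grind
    have := Finset.card_le_card a1.2
    omega
  rw [← hinj.encard_image]
  refine (Set.encard_le_encard hsub).trans ?_
  rw [Set.encard_coe_eq_coe_finsetCard, Finset.card_range]

theorem result : ∃ (L : Type) (_ : Lattice L),
    (∀ x y : L, x ≤ y → ∃ n : ℕ, ∀ C : Set L, IsChain (· ≤ ·) C → C ⊆ Set.Icc x y → C.encard ≤ n) ∧
      ¬ ∃ g : L → ℤ, StrictMono g := by
  refine ⟨L, inferInstance, fun a b _ => ?_, ?_⟩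
  · obtain ⟨N, hN⟩ : ∃ N, d N ≤ a := by
      cases a with
      | d n => exact ⟨n, le_refl _⟩
      | c i x j h => exact ⟨i, Nat.le_refl i⟩
      | f s => exact ⟨0, trivial⟩
    obtain ⟨s, hs⟩ : ∃ s, b ≤ f s := by
      cases b with
      | d n => exact ⟨∅, trivial⟩
      | c i x j h => exact ⟨{x}, Finset.mem_singleton_self x⟩
      | f s => exact ⟨s, le_refl _⟩
    obtain ⟨n, hn⟩ := bnd N s
    exact ⟨n, fun C hC h => hn C hC (h.trans (Set.Icc_subset_Icc hN hs))⟩
  · rintro ⟨g, hg⟩
    let x : X := fun i => (g (d i)).natAbs + i + 1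
    have h1 : ∀ i j (h : j < x i), g (d i) + j < g (c i x j h) := by
      intro i j
      induction j with
      | zero =>
        intro h
        have : g (d i) < g (c i x 0 h) := hg (lt_of_le_of_ne (Nat.le_refl i) (by simp))
        simpa using this
      | succ j ih =>
        intro h
        have h2 := ih (by omega)
        have : g (c i x j (by omega)) < g (c i x (j + 1) h) :=
          hg (lt_of_le_of_ne ⟨rfl, rfl, Nat.le_succ j⟩ (by simp))
        push_cast
        omega
    let i := (g (f {x})).natAbs
    have h2 := h1 i ((g (d i)).natAbs + i) (Nat.lt_succ_self _)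
    have h3 : g (c i x ((g (d i)).natAbs + i) (Nat.lt_succ_self _)) ≤ g (f {x}) :=
      hg.monotone (Finset.mem_singleton_self x)
    push_cast at h2
    have h4 : (i : ℤ) = |g (f {x})| := Int.natCast_natAbs _
    have := le_abs_self (g (f {x}))
    have := neg_abs_le (g (d i))
    omega

end Pool.Agent.Results.MP_df7fe8_co.Counter
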